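import Pool.Agent.Q57.FT.Top

/-!
# Generalised abundance for nef line bundles on toroidal models of covers of products of projective spaces

Q1 asks: if `K_X` is pseudoeffective and `L` is a nef line bundle such that `L ^ m ⊗ K_X^*` is nef for
some `m`, is `L` numerically equivalent to a semiample divisor? We prove for the following varieties `X`
and line bundles `L`, without the two conditions on `K_X`, that `L` is nef if and only if it is
globally generated.

Let `F i` be a form of degree `d i` in `n i + 1` variables whose zero set in the projective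
`n i`-space is a smooth hypersurface. Let `K` be the function field of an abelian cover `Y` of the
product of the projective `n i`-spaces which is branched along the hypersurfaces `F i = 0` of the
factors: `K` is generated by the affine coordinates `x i j / x i 0` and by roots `z j`,
`z j ^ (m j) = ∏ i, (F i (x i) / x i 0 ^ (d i)) ^ (a j i)`, where `m j` divides `a j i * d i`.
(Equivalently, `Y = (H 1 × ... × H r) / G`, `H i` the hypersurface `w ^ (d i) = F i`, `G` any group of
diagonal automorphisms `w i ↦ ζ i * w i`, `ζ i ^ (d i) = 1`.)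

A prime divisor `P` over `Y` (a divisorial place of `K`) has the vector `multiplicities F d x P` of the
multiplicities `v i` of the hypersurfaces along `P`. The vectors `v ≠ 0` of nonnegative integers with
`m j ∣ ∑ i, a j i * v i` for all `j` are the `Admissible` ones: the nonzero points, in the positive
orthant, of the lattice of the toroidal variety `Y`.

**The varieties.** The toroidal modifications `X` of `Y` are given by the subdivisions (fans) of the
positive orthant into rational polyhedral cones; `fan` is the set of the maximal cones, each given by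
a finite set of admissible generators which span the space. The manifolds of the question are given by
the fans whose cones are generated by bases of the lattice; they are the toroidal resolutions `X` of
`Y`. If `d i` is large for all `i` then `K_X` is pseudoeffective (by our hand-ins on these covers, e.g.
MP_e23cd6_ag, one has an explicit criterion, and `K_X` is then `ℚ`-effective); it can have every Kodaira
dimension which is a sum of some of the `n i`, so `L ^ m ⊗ K_X^*` is nef and not big in many cases,
for instance for pullbacks of nef line bundles under the projections of `X` to toroidal models of the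
covers of partial products, and `X` can also be a Calabi-Yau manifold.

**The line bundles.** A toroidal divisor `L` on `X` is a sum of a multiple `β t` of the hyperplane class
of each factor and of the prime divisors of the boundary of `X`. Its coefficient (the coefficient of
the pullback) at a prime divisor `P` over `X` is `coefficient F d x c β P = c v + ∑ t, β t * h t`,
where `v` is the vector of the multiplicities, and `h t` is minus the minimal order at `P` of the
homogeneous coordinates of the `t`-th factor; `L` is `ℚ`-Cartier if `c` is linear on the cones of the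
fan (`- c v = ∑ k, u σ k * v k` on the cone `σ`), and Cartier if moreover `c v` is an integer for all
admissible `v`. If all `n i ≥ 3` then every divisor on `X` is, up to `ℚ`-linear equivalence, of this
form (Lefschetz; this remark is not used and not proved here), so then Q1 holds for all nef line
bundles on `X`.

**The theorem.** For a toroidal Cartier divisor `L` on `X` the following are equivalent: `L` is nef;
the linear system `|L|` has no base points; the finitely many inequalities
`d t * u σ t ≤ β t` and `∑ k, u σ k * s k ≥ - c s` hold, for all maximal cones `σ`, all factors `t`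
and all generators `s` of the cones of the fan.
-/

set_option autoImplicit false

open FF MvPolynomial Pool.Agent.W602.GT

namespace Pool.Agent.Results.MP_1149f4_ag.NefToroidalBundles

/-- The form `F` has no singular zeros: its partial derivatives have no common zero but `0`. -/
def Smooth {n : ℕ} (F : MvPolynomial (Fin (n + 1)) ℂ) : Prop :=
  ∀ x : Fin (n + 1) → ℂ, x ≠ 0 → ∃ l, eval x (pderiv l F) ≠ 0

/-- The affine coordinates of the product of the projective spaces. -/
noncomputable def affine {r : ℕ} {n : Fin r → ℕ} {K : Type} [Field K]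
    (x : ∀ i, Fin (n i + 1) → K) (b : (i : Fin r) × Fin (n i)) : K :=
  x b.1 b.2.succ / x b.1 0

section

variable {r R : ℕ}

/-- The multiplicities which satisfy the divisibility conditions. -/
def Admissible (m : Fin R → ℕ) (a : Fin R → Fin r → ℕ) (v : Fin r → ℕ) : Prop :=
  v ≠ 0 ∧ ∀ j, m j ∣ ∑ i, a j i * v i

/-- The vector `v` is in the cone which is generated by the vectors in `σ`. -/
def InCone (σ : Finset (Fin r → ℕ)) (v : Fin r → ℕ) : Prop :=
  ∃ w : (Fin r → ℕ) → ℚ, (∀ s, 0 ≤ w s) ∧ ∀ k, (v k : ℚ) = ∑ s ∈ σ, w s * s k

/-- `fan` is a finite set of cones, each generated by a finite set of admissible vectors which span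
the whole space, which cover all admissible vectors. -/
structure IsFan (m : Fin R → ℕ) (a : Fin R → Fin r → ℕ) (fan : Finset (Finset (Fin r → ℕ))) :
    Prop where
  adm : ∀ σ ∈ fan, ∀ s ∈ σ, Admissible m a s
  full : ∀ σ ∈ fan, ∀ f : Fin r → ℚ, ∃ q : (Fin r → ℕ) → ℚ, ∀ k, f k = ∑ s ∈ σ, q s * s k
  cover : ∀ v, Admissible m a v → ∃ σ ∈ fan, InCone σ v

variable {K : Type} [Field K] [Algebra ℂ K] {n : Fin r → ℕ}

/-- The minimal order at `P` of the homogeneous coordinates `y`. -/
noncomputable def minimalOrder {n : ℕ} (y : Fin (n + 1) → K) (P : Place ℂ K) : ℤ :=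
  Finset.univ.inf' Finset.univ_nonempty fun j => P.ord (y j)

/-- The multiplicities of the hypersurfaces `F i = 0` along the prime divisor `P`; the `x i j` are the
homogeneous coordinates of the `i`-th factor, which are divided by one of minimal order at `P`. -/
noncomputable def multiplicities (F : ∀ i, MvPolynomial (Fin (n i + 1)) ℂ) (d : Fin r → ℕ)
    (x : ∀ i, Fin (n i + 1) → K) (P : Place ℂ K) (i : Fin r) : ℕ :=
  (P.ord (aeval (x i) (F i)) - d i * minimalOrder (x i) P).toNat

/-- The coefficient at the prime divisor `P` of the divisor with the function `c` of the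
multiplicities and the degrees `β t`: it is `c v` plus `β t` times the coefficient at `P` of the
hyperplane class of the `t`-th factor, which is represented by the divisor with the coefficients
`- minimalOrder (x t) P` (its sections are the linear forms in the `x t j`). -/
noncomputable def coefficient (F : ∀ i, MvPolynomial (Fin (n i + 1)) ℂ) (d : Fin r → ℕ)
    (x : ∀ i, Fin (n i + 1) → K) (c : (Fin r → ℕ) → ℚ) (β : Fin r → ℤ) (P : Place ℂ K) : ℚ :=
  c (multiplicities F d x P) - ∑ t, (β t : ℚ) * minimalOrder (x t) P

end

section sections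

variable {K : Type} [Field K] [Algebra ℂ K] (N : ℕ) (δ : Place ℂ K → ℚ)

/-- `f` is a section of `m L + j A`: its order at every prime divisor `P` (every divisorial place `P`
of `K`) is at least `j` times the order of one of the functions in `S`, minus `m` times the
coefficient `δ P` of `L`. Here `A` is the divisor which is generated by the finite set `S` of
functions; `A = 0` if `S = {1}`. -/
def IsSection (S : Finset K) (m j : ℕ) (f : K) : Prop :=
  ∀ P : Place ℂ K, Divisorial N P → f = 0 ∨ ∃ s ∈ S, s ≠ 0 ∧
    (j : ℚ) * P.ord s - m * δ P ≤ P.ord f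

/-- `L` is nef: there is a divisor `A` such that all `M L + A`, `M ≥ 1`, are semiample, that is, some
multiple of it has for every prime divisor `P` a section of the minimal order at `P`. This holds if
`L` is a nef divisor and `A` an ample divisor on a projective variety `X`. -/
def Nef : Prop :=
  ∃ S : Finset K, (∃ s ∈ S, s ≠ 0) ∧ ∀ M : ℕ, 1 ≤ M → ∃ j : ℕ, 1 ≤ j ∧
    ∀ P : Place ℂ K, Divisorial N P → ∃ f : K, f ≠ 0 ∧ IsSection N δ S (j * M) j f ∧
      ∀ s ∈ S, s ≠ 0 → (P.ord f : ℚ) ≤ j * P.ord s - (j * M) * δ P

/-- The linear system `|L|` has no base points: it has for every prime divisor `P` over `X` a section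
which does not vanish at `P`, that is, its order at `P` is the minimal one, `- δ P`. (If `|L|` has a
base point on `X` then all sections vanish at the exceptional divisor of its blowing up.) -/
def BasePointFree : Prop :=
  ∀ P : Place ℂ K, Divisorial N P → ∃ f : K, f ≠ 0 ∧ IsSection N δ {1} 1 0 f ∧
    (P.ord f : ℚ) ≤ - δ P

end sections

/-- **Nef toroidal Cartier divisors are base point free.** Let `K` be the function field of an abelian
cover `Y` of the product of the projective `n i`-spaces which is branched along smooth hypersurfaces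
`F i = 0` of the factors, `X` the toroidal modification of `Y` which is given by `fan`, and `L` the
toroidal divisor on `X` with the degrees `β t` and the coefficients `c`, `- c` linear on the cones
(`ℚ`-Cartier) and integral (Cartier). Then `L` is nef if and only if `|L|` is base point free, if and
only if the inequalities hold. -/
theorem result (r N R : ℕ) (n d : Fin r → ℕ) (hr : 1 ≤ r) (hn : ∀ i, 1 ≤ n i)
    (hd : ∀ i, 1 ≤ d i) (hN : N = ∑ i, n i)
    (F : ∀ i, MvPolynomial (Fin (n i + 1)) ℂ) (hF : ∀ i, (F i).IsHomogeneous (d i))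
    (hs : ∀ i, Smooth (F i)) (m : Fin R → ℕ) (hm : ∀ j, 1 ≤ m j) (a : Fin R → Fin r → ℕ)
    (hdiv : ∀ j i, m j ∣ a j i * d i)
    (K : Type) [Field K] [Algebra ℂ K] (x : ∀ i, Fin (n i + 1) → K) (hx0 : ∀ i, x i 0 ≠ 0)
    (hbas : IsTranscendenceBasis ℂ (affine x)) (z : Fin R → K)
    (hz : ∀ j, z j ^ m j = ∏ i, (aeval (x i) (F i) / x i 0 ^ d i) ^ a j i)
    (hgen : IntermediateField.adjoin ℂ (Set.range (affine x) ∪ Set.range z) = ⊤)
    (fan : Finset (Finset (Fin r → ℕ))) (hfan : IsFan m a fan)
    (c : (Fin r → ℕ) → ℚ) (hc0 : c 0 = 0) (β : Fin r → ℤ)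
    (u : Finset (Fin r → ℕ) → Fin r → ℚ)
    (hlin : ∀ σ ∈ fan, ∀ v, Admissible m a v → InCone σ v → - c v = ∑ k, u σ k * v k)
    (hcar : ∀ v, Admissible m a v → ∃ z : ℤ, c v = z)
    (δ : Place ℂ K → ℚ) (hδ : ∀ P, δ P = coefficient F d x c β P) :
    (Nef N δ ↔ BasePointFree N δ) ∧
      (Nef N δ ↔ ∀ σ ∈ fan, (∀ t, d t * u σ t ≤ β t) ∧
        ∀ τ ∈ fan, ∀ s ∈ τ, - c s ≤ ∑ k, u σ k * s k) := by
  obtain ⟨h1, h2⟩ := Pool.Agent.Q57.FT.main_cartier (p := 1) (N := N) hr hn hN hd hF hs hx0 hbas hm
    hdiv hz hgen (S := fan) ⟨hfan.adm, hfan.full, hfan.cover⟩ (c := fun _ => c) (fun _ => hc0)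
    (u := fun σ _ => u σ) (fun σ hσ _ v hv hvσ => hlin σ hσ v hv hvσ) (β := fun _ => β)
    (δ := fun _ => δ) (fun _ P => hδ P) (μ := fun _ => 1) (fun v hv => by
      obtain ⟨z, hz⟩ := hcar v hv
      exact ⟨z, by simp [hz]⟩)
  have h3 : Nef N δ → Pool.Agent.Q57.FT.NefZ N (fun _ : Fin 1 => δ) fun _ => ((1 : ℤ) : ℝ) := by
    rintro ⟨S, hS, hnef⟩
    refine ⟨S, hS, fun M hM => ?_⟩
    obtain ⟨j, hj, hjP⟩ := hnef M hM
    refine ⟨j, hj, fun P hP => ?_⟩
    obtain ⟨f, hf0, hf, hle⟩ := hjP P hP
    refine ⟨fun _ => j * M, fun i => ?_, f, hf0, fun P hP => ?_, fun s hs hs0 => ?_⟩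
    · push_cast
      rw [mul_one, sub_self, abs_zero]
      positivity
    · have h4 := hf P hP
      rw [Fin.sum_univ_one]
      push_cast at h4 ⊢
      exact h4
    · rw [Fin.sum_univ_one]
      push_cast
      exact hle s hs hs0
  have h4 : Pool.Agent.Q57.FT.Bpf N (fun _ : Fin 1 => δ) (fun _ => 1) → BasePointFree N δ := by
    intro h P hP
    obtain ⟨f, hf0, hf, hle⟩ := h P hP
    refine ⟨f, hf0, fun P hP => ?_, ?_⟩
    · refine (hf P hP).imp id fun h5 => ⟨1, by simp, one_ne_zero, ?_⟩
      rw [Fin.sum_univ_one] at h5
      rw [P.ord_one]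
      push_cast at h5 ⊢
      linarith
    · rw [Fin.sum_univ_one] at hle
      push_cast at hle
      linarith
  have h5 : BasePointFree N δ → Nef N δ := by
    intro h
    refine ⟨{1}, ⟨1, by simp, one_ne_zero⟩, fun M _ => ⟨1, le_rfl, fun P hP => ?_⟩⟩
    obtain ⟨f, hf0, hf, hle⟩ := h P hP
    refine ⟨f ^ M, pow_ne_zero _ hf0, fun P hP => ?_, fun s hs _ => ?_⟩
    · refine Or.inr ⟨1, by simp, one_ne_zero, ?_⟩
      obtain ⟨s, hs, hs0, h6⟩ := (hf P hP).resolve_left hf0
      rw [Finset.mem_singleton] at hs
      rw [hs, P.ord_one] at h6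
      rw [P.ord_one, P.ord_pow]
      push_cast at h6 ⊢
      have h7 := mul_le_mul_of_nonneg_left h6 (by positivity : (0 : ℚ) ≤ M)
      linarith
    · rw [Finset.mem_singleton] at hs
      rw [hs, P.ord_one, P.ord_pow]
      push_cast
      have h7 := mul_le_mul_of_nonneg_left hle (by positivity : (0 : ℚ) ≤ M)
      linarith
  have h6 : (Pool.Agent.Q57.FT.Ineq fan d (fun _ : Fin 1 => c) (fun _ => β) (fun σ _ => u σ)
      fun _ => ((1 : ℤ) : ℝ)) ↔ ∀ σ ∈ fan, (∀ t, d t * u σ t ≤ β t) ∧
        ∀ τ ∈ fan, ∀ s ∈ τ, - c s ≤ ∑ k, u σ k * s k := by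
    unfold Pool.Agent.Q57.FT.Ineq
    refine forall₂_congr fun σ _ => and_congr (forall_congr' fun t => ?_)
      (forall₂_congr fun τ _ => forall₂_congr fun s _ => ?_)
    · rw [Fin.sum_univ_one, Fin.sum_univ_one]
      push_cast
      rw [one_mul, one_mul]
      norm_cast
    · simp only [Fin.sum_univ_one, Int.cast_one, one_mul]
      norm_cast
  exact ⟨⟨fun h => h4 (h1.1 (h3 h)), h5⟩, ⟨fun h => h6.1 (h2.1 (h3 h)),
    fun h => h5 (h4 (h1.1 (h2.2 (h6.2 h))))⟩⟩

end Pool.Agent.Results.MP_1149f4_ag.NefToroidalBundles
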