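import Pool.Agent.Q42.EB.Main
import Pool.Agent.Q47.EB.Ex3

/-!
# Semiampleness of nef line bundles on quotients of complex tori

`X = V / Γ = A / G` is the quotient of a complex torus of dimension `d` by a finite group `G` of affine
automorphisms (reflections allowed). The theorem says that all nef line bundles on `X` themselves are
semiample, and not only numerically, exactly if `H^1(X, O_X) = 0`; that then the exponent `N(d)`, which
depends only on the dimension, is good for all of them; and that no exponent is good for all dimensions.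

`latt`, `IsTorusQuotient`, `LineBundle` and `LineBundle.pow` are defined in
`Pool.Agent.W594.SYZ.Defs2`; `IsChernForm` and `IsNefForm` in `Pool.Agent.W594.SYZ.TQDefs`;
`HOneZero` in `Pool.Agent.TH735.AQ.Defs`; `BasePointFree` (for every point some global section does
not vanish there) in `Pool.Agent.Q42.EB.Main`.
-/

set_option autoImplicit false

universe u

namespace Pool.Agent.Results.MP_1149f4_ag.SemiampleCriterion

open Pool.Agent.W594.SYZ2 Pool.Agent.TH735.AQ Pool.Agent.Q42.EB

/-- The exponent `4 ((3 ^ (4 d ^ 2))!) ^ 3`. -/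
def N (d : ℕ) : ℕ := 4 * (3 ^ (2 * d) ^ 2).factorial ^ 3

/-- (1) Let `X = V / Γ` be a torus quotient of dimension `d`. Then `H^1(X, O_X) = 0` if and only if all
nef line bundles on `X` are semiample, and if and only if `L ^ N(d)` is base point free for all nef
`L`.

(2) Exponents are not bounded over all dimensions: for every odd prime `p` there are a smooth `X` of
dimension `p + 1`, the quotient of a torus by a group which acts freely and preserves the volume form
(so `K_X = 0`), and an effective (some section is not zero) nef and semiample line bundle `L` on `X`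
such that `L ^ k` is base point free only if `p` divides `k`. -/
theorem result :
    (∀ (V : Type u) [NormedAddCommGroup V] [NormedSpace ℂ V] [FiniteDimensional ℂ V]
      (Γ : Subgroup (V ≃ᵃ[ℂ] V)), IsTorusQuotient Γ →
      List.TFAE [HOneZero Γ,
        ∀ (L : LineBundle Γ) (H : V → V → ℂ), IsChernForm L H → IsNefForm H →
          BasePointFree (L.pow (N (Module.finrank ℂ V))),
        ∀ (L : LineBundle Γ) (H : V → V → ℂ), IsChernForm L H → IsNefForm H →
          ∃ k : ℕ, 1 ≤ k ∧ BasePointFree (L.pow k)]) ∧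
    ∀ p : ℕ, p.Prime → p ≠ 2 →
      ∃ (V : Type) (_ : NormedAddCommGroup V) (_ : NormedSpace ℂ V) (_ : FiniteDimensional ℂ V)
        (Γ : Subgroup (V ≃ᵃ[ℂ] V)) (L : LineBundle Γ) (H : V → V → ℂ),
        Module.finrank ℂ V = p + 1 ∧ IsTorusQuotient Γ ∧ (∀ γ ∈ Γ, γ ≠ 1 → ∀ v, γ v ≠ v) ∧
        (∀ γ ∈ Γ, LinearMap.det (γ.linear : V →ₗ[ℂ] V) = 1) ∧ IsChernForm L H ∧ IsNefForm H ∧
        (∃ s, L.IsSection s ∧ s ≠ 0) ∧ BasePointFree (L.pow (N (p + 1))) ∧
        ∀ k : ℕ, BasePointFree (L.pow k) → p ∣ k := by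
  refine ⟨?_, ?_⟩
  · intro V _ _ _ Γ hΓ
    have hN : 1 ≤ N (Module.finrank ℂ V) := Q47.EB.expo_pos _
    tfae_have 1 → 2 := by
      rintro h01 L H ⟨hH, F, hF, hFe⟩ hn
      exact Q47.EB.gg_of_hone hΓ h01 hH ⟨hF, hFe⟩ hn
    tfae_have 2 → 3 := fun h L H hc hn => ⟨_, hN, h L H hc hn⟩
    tfae_have 3 → 1 := by
      intro h
      by_contra h01
      obtain ⟨P, hP, hbad⟩ := exists_bad hΓ h01
      obtain ⟨k, hk, hb⟩ := h P _ (chern_of_flat hP) (fun _ => le_rfl)
      obtain ⟨s, hs, h0⟩ := hb 0
      exact h0 (by rw [hbad k hk s hs]; rfl)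
    tfae_finish
  · intro p hp h2
    obtain ⟨V, i1, i2, i3, Γ, β, L, H, h1, h2, h3, h4, h5, h6, h7, h8, h9, h10, h11⟩ :=
      Q47.EB.Ex3.exists_pair p hp h2
    refine ⟨V, i1, i2, i3, Γ, L, H, h1, h2, h3, h4, h9, h10, ⟨β, ⟨h6, fun γ v => ?_⟩, ?_⟩, ?_, h11⟩
    · have := h8 0 γ v
      simpa using this
    · rintro rfl
      obtain ⟨v, hv⟩ := h7
      exact hv rfl
    · obtain ⟨hH, F, hF, hFe⟩ := h9
      have := Q47.EB.gg_of_pair h2 hH ⟨hF, hFe⟩ h5 h6 h7 (h8 0) h10
      rw [h1] at this
      exact this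

end Pool.Agent.Results.MP_1149f4_ag.SemiampleCriterion
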