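import Pool.Agent.Q47.GA.Near
import Pool.Agent.Q47.GA.Klt

/-!
# Generalised abundance for klt pairs on toric bundles over quotients of complex tori

Let `X = V / Γ` be the quotient of a complex torus of any dimension by any finite group (with or
without fixed points and reflections, projective or not), and let `Y → X` be a toric bundle: a
locally trivial bundle whose fibre is a smooth complete toric variety, twisted by arbitrary line
bundles `c_i` on `X` (for example the projective bundle of a direct sum of line bundles). Let `Δ` be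
any effective `ℚ`-divisor on `Y` such that the pair `(Y_v, Δ_v)` is Kawamata log terminal for one
fibre `Y_v` of `Y → X` (no condition over the other points, and `Δ` need not be invariant under the
torus). Let `D = m (K_Y + Δ)` be integral, and assume that some multiple of `D` is effective on the
fibres (this holds if `K_Y + Δ` is pseudo-effective). Let `N` be a nef line bundle on `Y`, and let
`M = D + N`.

The theorem proves the conclusion of the Generalised Abundance Conjecture for `M`: if `M` is nef then
`M` is numerically semiample. If `M` is not nef, it gives the numerical form of a good minimal model: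
let `Q` be the semigroup of the integral pairs `(k, α)`, `α ∈ ℕ^ι`, such that `∑ α_i D_i` is of the
class of `k M` on the fibre and the difference of `k M` and `∑ α_i D_i` is a nef class on `X`. There
is a numerically trivial line bundle `P` on `X` such that with `M' = M + P`

* `Q` is finitely generated,
* there is `e ≥ 1` such that for all `(k, α) ∈ Q` the line bundle `e (k M' - ∑ α_i D_i)` on `X` is
  globally generated, which gives sections `f x ^ (e α)` of `e k M'`,
* if `M` is nef, then `e M'` is globally generated on `Y`,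
* for each line bundle `A` on `Y` there is `C` such that the monomials of the sections of all line
  bundles `B` which are numerically equivalent to `k M + A` are at a distance `≤ C` from `Q`; and for
  `A = 0` they are in `Q`.

So up to a bounded error, all sections of all line bundles in the numerical classes `k M + A` come
from `M'`: the section ring of `M'` is finitely generated (by the theorem of Zariski), `M` is
pseudo-effective if and only if it is numerically equivalent to an effective `ℚ`-divisor, and the
asymptotic order of vanishing of the numerical class of `M` along each divisorial valuation `w` over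
`Y` is the minimum of `w(x ^ α) / k`, where `(k, α)` is one of the generators of `Q`.

For `N = 0` one may take `P = 0` (abundance), but for `N ≠ 0` the twist is necessary (`N` may be
numerically trivial, of infinite order). The theorem is wrong for log canonical pairs, and it is
wrong if no multiple of `D` is effective on the fibres.

`IsSmoothFan`, `LinEquiv`, `IsSection`, `IsLogPluricanonical` and `IsNef` are defined in
`Pool.Agent.Q47.TB.Defs`, `IsKlt` in `Pool.Agent.Q47.GA.Klt`, `IsTorusQuotient` and `LineBundle`
(given by a factor of automorphy `L.e`) in `Pool.Agent.W594.SYZ.Defs2`, `IsChernForm` and `IsNefForm`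
in `Pool.Agent.W594.SYZ.TQDefs` and `IsRamification` in `Pool.Agent.TH735.AQ.MirDefs`.

The proof. Since the pair on the fibre is klt, each `(k, α) ∈ Q` is (after a multiplication by `K`)
a combination of the monomials of `m Δ` and of the vertices of `N` in which ALL coefficients are
positive. So if the character of `k M - ∑ α_i D_i` on the invariant lattice vectors in the kernel of
its Chern form is considered, then the kernel is contained in the kernels of the Chern forms of all
coefficients of `m Δ` and of all restrictions of `N`. The coefficients are log pluricanonical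
divisors on `X`, so their characters are trivial there; the characters of the restrictions of `N`
agree up to torsion, since the differences of the vertices are rational combinations of the
differences of the monomials; and one flat twist by `P` makes one of them trivial up to torsion.
-/

set_option autoImplicit false

universe u w

namespace Pool.Agent.Results.MP_1149f4_ag.ToricBundlePairs

open Pool.Agent.W594.SYZ2 Pool.Agent.TH735.AQ Q47.TB Q47.GA MvPolynomial

variable {V : Type u} [NormedAddCommGroup V] [NormedSpace ℂ V] {Γ : Subgroup (V ≃ᵃ[ℂ] V)}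
  {ι : Type w} [Fintype ι] {n : ℕ}

/-- The semigroup `Q` of the pairs `(k, α)` such that `∑ α_i D_i` is of the class of `k d` on the
fibre and the class `k H - ∑ α_i Hc_i` on the base is nef. -/
def semigroup (r : ι → Fin n → ℤ) (d : ι → ℤ) (H : V → V → ℂ) (Hc : ι → V → V → ℂ) :
    Set (ℕ × (ι → ℕ)) :=
  {p | LinEquiv r (fun i => (p.2 i : ℤ)) (fun i => p.1 * d i) ∧
    IsNefForm fun v w => (p.1 : ℂ) * H v w - ∑ i, (p.2 i : ℂ) * Hc i v w}

/-- Some multiple of the class `d` on the fibre is effective. -/
def IsFibreEffective (r : ι → Fin n → ℤ) (d : ι → ℤ) : Prop :=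
  ∃ k : ℕ, 1 ≤ k ∧ ∃ β : ι → ℕ, LinEquiv r (fun i => (β i : ℤ)) fun i => k * d i

/-- Let `X = V / Γ` be a torus quotient, let `ρ` define the ramification divisor of `V → X`, let
`Y → X` be the toric bundle given by a smooth complete fan with the rays `r i` and by line bundles
`c i` on `X` with Chern forms `Hc i`, let `F` define the effective divisor `m Δ` on `Y`, and let
`O_Y(m (K_Y + Δ))` be the line bundle `O_Y(d - m (1, ..., 1); L)` on `Y`. Assume that the fibre
`(Y_v, Δ_v)` is klt for some `v = v₀` and that some multiple of `m (K_Y + Δ)` is effective on the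
fibres. Let `N = O_Y(b; E)` be a nef line bundle on `Y`, and let `M = m (K_Y + Δ) + N`, which is the
line bundle `O_Y(D; L ⊗ E)` with the Chern form `H'`. Let `Q` be the semigroup of `M`.

There is a line bundle `P` on `X` with the Chern form `0` such that for `M' = M ⊗ P`

(1) `Q` is generated by finitely many `(T_l, a_l)`, `T_l ≥ 1`,

(2) there is `e ≥ 1` such that for all `(k, α) ∈ Q` and all `v₁` there is `f` with `f v₁ ≠ 0` such that
`f x ^ (e α)` is a section of `e k M'`, and if `M` is nef, then `e M'` is globally generated,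

(3) all monomials `x ^ α` of all sections of all line bundles `O_Y(k D; B)` for which `B` has the
Chern form `k H'` have `(k, α) ∈ Q`,

(4) for each line bundle `O_Y(b'; A)`, where `A` has the Chern form `HA`, there is a number `C` such
that for each monomial `x ^ α` of each section of each line bundle `O_Y(k D + b'; B)` for which `B`
has the Chern form `k H' + HA` there is `(k', α') ∈ Q` with `|k - k'| ≤ C` and
`|α_i - α'_i| ≤ C`. -/
theorem result [FiniteDimensional ℂ V] (Γ : Subgroup (V ≃ᵃ[ℂ] V)) (hΓ : IsTorusQuotient Γ)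
    (ρ : V → ℂ) (hρ : IsRamification Γ ρ)
    (n : ℕ) (r : ι → Fin n → ℤ) (S : Set (Set ι)) (hS : IsSmoothFan r S)
    (c : ι → LineBundle Γ) (Hc : ι → V → V → ℂ) (hc : ∀ i, IsChernForm (c i) (Hc i))
    (m : ℕ) (hm : 1 ≤ m) (d : ι → ℤ) (F : V → MvPolynomial ι ℂ)
    (L : LineBundle Γ) (H : V → V → ℂ) (hL : IsChernForm L H)
    (hF : Q47.TB.IsLogPluricanonical r c m ρ d F L)
    (v₀ : V) (hklt : IsKlt S m (F v₀)) (heff : IsFibreEffective r fun i => d i - m)
    (b : ι → ℤ) (E : LineBundle Γ) (HE : V → V → ℂ) (hE : IsChernForm E HE)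
    (hN : IsNef r S Hc b HE)
    (D : ι → ℤ) (hD : D = fun i => d i - m + b i)
    (H' : V → V → ℂ) (hH' : H' = fun v w => H v w + HE v w) :
    ∃ P : LineBundle Γ, IsChernForm P (fun _ _ => 0) ∧
      (∃ (p : ℕ) (T : Fin p → ℕ) (a : Fin p → ι → ℕ),
        (∀ l, 1 ≤ T l ∧ (T l, a l) ∈ semigroup r D H' Hc) ∧
        ∀ k α, (k, α) ∈ semigroup r D H' Hc →
          ∃ μ : Fin p → ℕ, k = ∑ l, μ l * T l ∧ ∀ i, α i = ∑ l, μ l * a l i) ∧
      (∃ e : ℕ, 1 ≤ e ∧
        (∀ k α, (k, α) ∈ semigroup r D H' Hc → ∀ v₁, ∃ f : V → ℂ, f v₁ ≠ 0 ∧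
          IsSection r c (fun i => (e * k : ℕ) * D i)
            (fun γ v => (L.e γ v * E.e γ v * P.e γ v) ^ (e * k))
            fun v => monomial (Finsupp.equivFunOnFinite.symm fun i => e * α i) (f v)) ∧
        (IsNef r S Hc D H' → ∀ (v : V) (x : ι → ℂ), {i | x i = 0} ∈ S → ∃ G,
          IsSection r c (fun i => e * D i)
            (fun γ v => (L.e γ v * E.e γ v * P.e γ v) ^ e) G ∧ eval x (G v) ≠ 0)) ∧
      (∀ (k : ℕ) (B : LineBundle Γ), (IsChernForm B fun v w => (k : ℂ) * H' v w) →
        ∀ G : V → MvPolynomial ι ℂ, IsSection r c (fun i => k * D i) B.e G →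
          ∀ (v : V) (α : ι →₀ ℕ), coeff α (G v) ≠ 0 →
            (k, (α : ι → ℕ)) ∈ semigroup r D H' Hc) ∧
      ∀ (A : LineBundle Γ) (HA : V → V → ℂ), IsChernForm A HA → ∀ b' : ι → ℤ,
        ∃ C : ℕ, ∀ (k : ℕ) (B : LineBundle Γ),
          (IsChernForm B fun v w => (k : ℂ) * H' v w + HA v w) →
          ∀ G : V → MvPolynomial ι ℂ, IsSection r c (fun i => k * D i + b' i) B.e G →
            ∀ v α, coeff α (G v) ≠ 0 → ∃ k' α', (k', α') ∈ semigroup r D H' Hc ∧
              |(k : ℤ) - k'| ≤ C ∧ ∀ i, |(α i : ℤ) - α' i| ≤ C := by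
  classical
  obtain ⟨k₀, hk₀, β₀, hβ₀⟩ := heff
  obtain ⟨p₀, q₀, -, hqp, hw⟩ := weights_of_klt hm hklt
  obtain ⟨P, hP, p, T, a, h1, h2, ⟨N, hN1, h3⟩, h4⟩ := Q47.GA.ga hΓ hρ hS hc hm hL hF
    (F v₀).support (fun α hα => ⟨v₀, mem_support_iff.1 hα⟩) hqp hw hk₀ hβ₀ hE hN hD hH'
  refine ⟨P, hP, ⟨p, T, a, h1, h2⟩, ⟨N, hN1, h3, fun hM v x hx => ?_⟩,
    fun k B hB G hG v α hα => Q47.GA.mem_Q hΓ hc hB hG hα, fun A HA hA b' => ?_⟩
  · obtain ⟨β, hβ0, hβ, hn⟩ := hM _ hx
    have hQ : (1, β) ∈ Q47.GA.Q r D H' Hc := by
      refine ⟨?_, fun v => ?_⟩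
      · simpa using hβ
      · have h5 := hn v
        simpa using h5
    obtain ⟨f, hf, hs⟩ := h3 1 β hQ v
    rw [mul_one] at hs
    refine ⟨_, hs, ?_⟩
    rw [eval_monomial, Finsupp.prod_fintype _ _ fun i => pow_zero _]
    refine mul_ne_zero hf (Finset.prod_ne_zero_iff.2 fun i _ => ?_)
    simp only [Finsupp.equivFunOnFinite_symm_apply_apply]
    by_cases hi : x i = 0
    · have h5 : β i = 0 := hβ0 i hi
      rw [h5, mul_zero, pow_zero]
      exact one_ne_zero
    · exact pow_ne_zero _ hi
  · obtain ⟨W, hW⟩ := h4 A HA hA b'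
    refine ⟨∑ w ∈ W, (w.1.natAbs + ∑ i, (w.2 i).natAbs), fun k B hB G hG v α hα => ?_⟩
    obtain ⟨w, hw, μ, h6, h7⟩ := hW k B hB G hG v α hα
    have h8 : (w.1.natAbs + ∑ i, (w.2 i).natAbs) ≤ ∑ w ∈ W, (w.1.natAbs + ∑ i, (w.2 i).natAbs) :=
      Finset.single_le_sum (f := fun w : ℤ × (ι → ℤ) => (w.1.natAbs + ∑ i, (w.2 i).natAbs))
        (fun _ _ => Nat.zero_le _) hw
    refine ⟨∑ l, μ l * T l, fun i => ∑ l, μ l * a l i, ?_, ?_, fun i => ?_⟩
    · exact Q47.GA.Q_comb (fun l => (h1 l).2) μ
    · have h10 : (k : ℤ) - ((∑ l, μ l * T l : ℕ) : ℤ) = w.1 := by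
        rw [h6]
        push_cast
        ring
      rw [h10, Int.abs_eq_natAbs]
      exact_mod_cast (Nat.le_add_right _ _).trans h8
    · have h9 : (w.2 i).natAbs ≤ ∑ i, (w.2 i).natAbs :=
        Finset.single_le_sum (f := fun i => (w.2 i).natAbs) (fun _ _ => Nat.zero_le _)
          (Finset.mem_univ i)
      have h10 : (α i : ℤ) - ((∑ l, μ l * a l i : ℕ) : ℤ) = w.2 i := by
        rw [h7 i]
        push_cast
        ring
      rw [h10, Int.abs_eq_natAbs]
      exact_mod_cast h9.trans ((Nat.le_add_left _ _).trans h8)

end Pool.Agent.Results.MP_1149f4_ag.ToricBundlePairs
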